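import Pool.Agent.J4H11.GQ.N9

/-!
# Lang's conjecture, density version, for points of bounded degree of varieties over products of
# elliptic curves

`E_j : y² = x³ + a_j x + b_j` (`j = 1, …, r`) are elliptic curves over `ℚ` of rank at least three,
`A = E_1 × … × E_r`, `ρ` is the rank of `A(ℚ)`, and `P` is a point of `A(ℂ)` with algebraically
independent `x`-coordinates (a generic point of `A`).

`X` is an algebraic subset over `ℚ` of `A × 𝔸^s` (more precisely, of the product of the affine parts
`y_j² = x_j³ + a_j x_j + b_j` and the affine space) such that the fibre of `X` over the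
generic point `P` is finite. Every variety over `ℚ` with a
generically finite rational map to `A` is birational to such an `X`.

`K ⊂ ℂ` is a number field and `d ≥ 1` is an integer. For `K = ℚ` and `d = 1` the theorem is
about the rational points of `X`.

The subset `X` is called *dominated* (for `K` and `d`) if a point of the
fibre of `X` over `P` has degree at most `d` over the field `K(R)`, for a point `R` of `A(ℂ)` with
`n R + S = P`, where `n ≥ 1` and `S ∈ A(ℚ)`. For `K = ℚ` and `d = 1` this means that there is a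
rational map `A → X` over the map `Q ↦ n Q + S` from `A` to `A`; since this map
is étale, `X` can be dominated only if one of the
components of `X` which map onto `A` is birational to an étale cover of `A`. In particular it is not
dominated if these components are of general type.

The result is the following dichotomy for the points `Q` of `A(ℚ)` such that the fibre `X_Q` has a
point of degree at most `d` over `K`.

* If `X` is not dominated, then these points have
  density zero in `A(ℚ)`: there is `γ > 0` such that in every ball of radius `T` (for the square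
  root of the height) there are at most `C T ^ ρ (log T) ^ (- γ)` of them. If `X` is of general
  type, `K = ℚ` and `d = 1`, then Lang's conjecture says that these points are contained in a proper
  closed subset of `A`. There is no condition on the monodromy of `X` over `A`, on the directions in
  which `X` is ramified, or on the étale covers of `A` which are dominated by `X`.
* If `X` is dominated, then these points have positive lower density in `A(ℚ)`.

For example, let `X` be a cover of `A` of degree `D` whose pull-back by every map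
`Q ↦ n Q + S` remains irreducible over `K`. Then the case `d = D - 1` says that for all
`Q` in `A(ℚ)` outside of a set of density zero the fibre `X_Q` is irreducible over `K`.

The proof of the first part. (1) The case of a general `d` is reduced to `d = 1`: an algebraic set
`Y` parametrizes the monic polynomials `g` of degree `e ≤ d` and the points of `X` with
coordinates in the algebra `ℚ[T] / g`, such that the class of `T` is a given linear
combination of the coordinates. Its fibre over `P` is finite. The case of a general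
`K` is reduced to `K = ℚ`: a generator of `K` is an additional variable, and the
elements of `ℚ(R)` which are algebraic over `ℚ` are rational.
(2) The problem is reduced to covers `Φ(Q, w) = 0` with `Φ` monic in
`w`, where no root of `Φ(P, w)` is in a field `ℚ(R)` as above. (3) One finds a finite number of
pairs `(m, S)`, with `m ∈ ℕ^r` and `S ∈ A(ℚ)`, such that the cosets `m A(ℚ) + S` cover `A(ℚ)`, and
for the point `R` with `m R + S = P` the étale part of the cover given by `w`, and of its
Galois closure, in each direction `E_1, …, E_r` successively, is defined over the algebraic closure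
of the field of the previous coordinates. (4) The rings of functions of the resulting towers of
curves satisfy equidistribution: for `H = H_1 × … × H_r ⊂ A(𝔽_p)` with
`|H_j| ≥ p ^ (1 / 2 + κ)`, the number of the homomorphisms to `𝔽_p` above a coset of `H` is
`(e + o(1)) |H|`, where `e` is the number of the roots modulo `p` of a polynomial which generates
the field of the constants. This uses Weil's bound for the curves in the tower and their translates
and a second moment computation. (5) If `w ∉ ℚ(R)` and the constants of `ℚ(R, w)` are rational,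
then the field of the Galois closure has two different embeddings of `ℚ(R, w)`, and for the primes
which split in its field of constants a positive proportion of every coset of `H` has no preimage in
the cover. (6) A Mordell-Weil sieve in towers of such primes gives the result; the images of
the `E_j(ℚ)` in `E_j(𝔽_p)` have at least `p ^ (1 / 2 + κ)` elements for almost all primes because
the ranks are at least three.
-/

set_option autoImplicit false

namespace Pool.Agent.Results.MP_2ae8fe_ag.BoundedDegreeDichotomy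

open MvPolynomial Module

/-- the elliptic curve `y² = x³ + a x + b` over the field `F` -/
def E (F : Type) [Field F] (a b : ℤ) : WeierstrassCurve F := ⟨0, 0, 0, a, b⟩

/-- the group of the points of `y² = x³ + a x + b` with coordinates in `F` -/
abbrev Pts (F : Type) [Field F] (a b : ℤ) : Type := (E F a b).toAffine.Point

/-- the affine coordinates `x`, `y` of a point; both are `0` for the point at infinity -/
def coord {F : Type} [Field F] {a b : ℤ} : Pts F a b → Fin 2 → F
  | .zero => ![0, 0]
  | .some x y _ => ![x, y]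

/-- the height `log (max (|p|, q))` of a rational point with `x`-coordinate `p / q` in lowest terms;
`0` for the point at infinity -/
noncomputable def height {a b : ℤ} : Pts ℚ a b → ℝ
  | .zero => 0
  | .some x _ _ => Real.log (max (x.num.natAbs : ℝ) (x.den : ℝ))

section
variable {r s : ℕ} {a b : Fin r → ℤ}

/-- The complex points of the fibre over the point `Q` of `A(F)`, `F = ℚ` or `F = ℂ`, of the
algebraic set `X`, which is given by a set of
polynomials in the coordinates of the affine space, with coefficients which are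
polynomials in the coordinates `x_j` (variable `(j, 0)`) and `y_j` (variable `(j, 1)`). -/
def Fibre {F : Type} [Field F] [Algebra F ℂ]
    (X : Set (MvPolynomial (Fin s) (MvPolynomial (Fin r × Fin 2) ℤ)))
    (Q : (j : Fin r) → Pts F (a j) (b j)) : Set (Fin s → ℂ) :=
  {z | ∀ G ∈ X, eval₂ (aeval (fun v => algebraMap F ℂ (coord (Q v.1) v.2))).toRingHom z G = 0}

/-- The degree of `z` over the subfield `F` of `ℂ` is at most `d`: the coordinates of
`z` are in an extension of `F` of degree at most `d`. -/
def DegreeLE (F : Subfield ℂ) (d : ℕ) (z : Fin s → ℂ) : Prop :=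
  ∃ L : IntermediateField F ℂ, FiniteDimensional F L ∧ finrank F L ≤ d ∧ ∀ t, z t ∈ L

/-- the field `K(R)` generated by `K` and the coordinates of the point `R` of `A(ℂ)` -/
noncomputable def fieldOf (K : IntermediateField ℚ ℂ) (R : (j : Fin r) → Pts ℂ (a j) (b j)) : Subfield ℂ :=
  Subfield.closure ((K : Set ℂ) ∪ Set.range (fun v : Fin r × Fin 2 => coord (R v.1) v.2))

/-- the coordinates of the point `S` of `A(ℂ)` are rational numbers, that is, `S` is in `A(ℚ)` -/
def IsRational (S : (j : Fin r) → Pts ℂ (a j) (b j)) : Prop :=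
  ∀ j e, ∃ q : ℚ, coord (S j) e = q

/-- A point of the fibre of `X` over the generic point `P` has degree at most `d` over a field
`K(R)`, where `R` is a point of `A(ℂ)` with `n R + S = P` for some `n ≥ 1` and some rational
point `S`. -/
def Dominated (X : Set (MvPolynomial (Fin s) (MvPolynomial (Fin r × Fin 2) ℤ)))
    (P : (j : Fin r) → Pts ℂ (a j) (b j)) (K : IntermediateField ℚ ℂ) (d : ℕ) : Prop :=
  ∃ n : ℕ, 1 ≤ n ∧ ∃ R S : (j : Fin r) → Pts ℂ (a j) (b j), IsRational S ∧ n • R + S = P ∧
    ∃ z ∈ Fibre X P, DegreeLE (fieldOf K R) d z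

/-- the fibre of `X` over the point `Q` of `A(ℚ)` has a point of degree at most `d` over `K` -/
def HasPoint (X : Set (MvPolynomial (Fin s) (MvPolynomial (Fin r × Fin 2) ℤ)))
    (K : IntermediateField ℚ ℂ) (d : ℕ) (Q : (j : Fin r) → Pts ℚ (a j) (b j)) : Prop :=
  ∃ z ∈ Fibre X Q, DegreeLE K.toSubfield d z

/-- the points of `A(ℚ)` in a ball of radius `T` (for the square root of the height) -/
def Ball (c : (j : Fin r) → Pts ℚ (a j) (b j)) (T : ℝ) : Set ((j : Fin r) → Pts ℚ (a j) (b j)) :=
  {Q | ∀ j, height (Q j - c j) ≤ T ^ 2}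

/-- the points of `A(ℚ)` with a coordinate at infinity -/
def AtInfinity (Q : (j : Fin r) → Pts ℚ (a j) (b j)) : Prop := ∃ j, Q j = 0

end

section
open Pool.Agent.J4H11.RC Pool.Agent.J4H11.SC Pool.Agent.J4H11.GN Pool.Agent.J4H11.GP
  Pool.Agent.J4H11.GQ Pool.Agent.H901R3.MS

theorem coord_eq {F : Type} [Field F] {a b : ℤ} (P : Pts F a b) (e : Fin 2) :
    coord P e = ![(crd (a := (a : F)) (b := (b : F)) P).1,
      (crd (a := (a : F)) (b := (b : F)) P).2] e := by
  rcases P with _ | ⟨x, y, h⟩ <;> rfl

theorem height_eq {a b : ℤ} (P : Pts ℚ a b) :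
    height P = hx (a := (a : ℚ)) (b := (b : ℚ)) P := by
  rcases P with _ | ⟨x, y, h⟩ <;> rfl

variable {r s : ℕ} {a b : Fin r → ℤ}

theorem val_eq {F : Type} [Field F] [Algebra F ℂ] (Q : (j : Fin r) → Pts F (a j) (b j)) :
    ((aeval (fun v : Fin r × Fin 2 => algebraMap F ℂ (coord (Q v.1) v.2))) :
      MvPolynomial (Fin r × Fin 2) ℤ →ₐ[ℤ] ℂ).toRingHom =
      (algebraMap F ℂ).comp (evf (a := a) (b := b) Q) := by
  apply MvPolynomial.ringHom_ext
  · intro n
    rw [← RingHom.comp_apply, ← RingHom.comp_apply]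
    congr 1
    exact RingHom.ext_int _ _
  · rintro ⟨j, e⟩
    change aeval _ (X (j, e)) = _
    rw [aeval_X, RingHom.comp_apply]
    congr 1
    unfold evf
    rcases fin2 e with rfl | rfl
    · rw [evp_x]
      exact coord_eq (Q j) 0
    · rw [evp_y]
      exact coord_eq (Q j) 1

theorem mem_fibre {F : Type} [Field F] [Algebra F ℂ]
    (X : Set (MvPolynomial (Fin s) (MvPolynomial (Fin r × Fin 2) ℤ)))
    (Q : (j : Fin r) → Pts F (a j) (b j)) (z : Fin s → ℂ) :
    z ∈ Fibre X Q ↔ ∀ G ∈ X, eval₂ ((algebraMap F ℂ).comp (evf (a := a) (b := b) Q)) z G = 0 := by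
  unfold Fibre
  rw [Set.mem_ofPred_eq, val_eq]

theorem mem_fibreC (X : Set (MvPolynomial (Fin s) (MvPolynomial (Fin r × Fin 2) ℤ)))
    (Q : (j : Fin r) → Pts ℂ (a j) (b j)) (z : Fin s → ℂ) :
    z ∈ Fibre X Q ↔ ∀ G ∈ X, eval₂ (evf (a := a) (b := b) Q) z G = 0 := by
  rw [mem_fibre]
  exact Iff.rfl

theorem fieldOf_eq (K : IntermediateField ℚ ℂ) (R : (j : Fin r) → Pts ℂ (a j) (b j)) :
    fieldOf K R = K.toSubfield ⊔ fld (a := a) (b := b) R := by
  refine le_antisymm ?_ (sup_le ?_ ?_)
  · refine Subfield.closure_le.2 ?_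
    rintro x (hx | ⟨⟨j, e⟩, rfl⟩)
    · exact (le_sup_left : K.toSubfield ≤ K.toSubfield ⊔ fld (a := a) (b := b) R) hx
    · refine (le_sup_right : fld (a := a) (b := b) R ≤ K.toSubfield ⊔ fld (a := a) (b := b) R) ?_
      rcases fin2 e with rfl | rfl
      · exact Subfield.subset_closure (Or.inl ⟨j, (coord_eq (R j) 0).symm⟩)
      · exact Subfield.subset_closure (Or.inr ⟨j, (coord_eq (R j) 1).symm⟩)
  · intro x hx
    exact Subfield.subset_closure (Or.inl hx)
  · unfold fld
    rw [Subfield.closure_le]
    rintro z (⟨j, rfl⟩ | ⟨j, rfl⟩)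
    · exact Subfield.subset_closure (Or.inr ⟨(j, 0), coord_eq (R j) 0⟩)
    · exact Subfield.subset_closure (Or.inr ⟨(j, 1), coord_eq (R j) 1⟩)

theorem isRational_iff (S : (j : Fin r) → Pts ℂ (a j) (b j)) :
    IsRational S ↔ ∀ j, IsRatP (a := (a j : ℂ)) (b := (b j : ℂ)) (S j) := by
  constructor
  · intro h j
    obtain ⟨q0, h0⟩ := h j 0
    obtain ⟨q1, h1⟩ := h j 1
    rw [coord_eq] at h0 h1
    exact ⟨(q0, q1), Prod.ext h0 h1⟩
  · intro h j e
    obtain ⟨q, hq⟩ := h j
    have h1 := coord_eq (a := a j) (b := b j) (S j) e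
    rw [hq] at h1
    rcases fin2 e with rfl | rfl
    · exact ⟨q.1, h1⟩
    · exact ⟨q.2, h1⟩

theorem mem_ball (c Q : (j : Fin r) → Pts ℚ (a j) (b j)) (T : ℝ) : Q ∈ Ball c T ↔
    ∀ j, hx (a := (a j : ℚ)) (b := (b j : ℚ)) (Q j - c j) ≤ T ^ 2 :=
  forall_congr' fun j => by rw [height_eq]

theorem mem_ball0 (Q : (j : Fin r) → Pts ℚ (a j) (b j)) (T : ℝ) :
    Q ∈ Ball (a := a) (b := b) 0 T ↔
    ∀ j, hx (a := (a j : ℚ)) (b := (b j : ℚ)) (Q j) ≤ T ^ 2 :=
  forall_congr' fun j => by rw [Pi.zero_apply, sub_zero, height_eq]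

end

open Pool.Agent.J4H11.RC Pool.Agent.J4H11.SC Pool.Agent.J4H11.GN Pool.Agent.J4H11.GP
  Pool.Agent.J4H11.GQ in
theorem result (r : ℕ) (hr : 1 ≤ r) (a b : Fin r → ℤ)
    (hE : ∀ j, 4 * a j ^ 3 + 27 * b j ^ 2 ≠ 0)
    (hrk : ∀ j, 3 ≤ finrank ℤ (Pts ℚ (a j) (b j)))
    -- a generic point `P` of `A`
    (P : (j : Fin r) → Pts ℂ (a j) (b j))
    (hP : AlgebraicIndependent ℚ (fun j => coord (P j) 0))
    -- the algebraic set `X`, generically finite over `A`
    (s : ℕ) (X : Set (MvPolynomial (Fin s) (MvPolynomial (Fin r × Fin 2) ℤ)))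
    (hX : (Fibre X P).Finite)
    -- the number field `K` and the bound `d` for the degrees
    (K : IntermediateField ℚ ℂ) [FiniteDimensional ℚ K] (d : ℕ) (hd : 1 ≤ d) :
    (¬ Dominated X P K d → ∃ γ C : ℝ, 0 < γ ∧
      ∀ (c : (j : Fin r) → Pts ℚ (a j) (b j)) (T : ℝ), 2 ≤ T →
      {Q | Q ∈ Ball c T ∧ (AtInfinity Q ∨ HasPoint X K d Q)}.Finite ∧
      ({Q | Q ∈ Ball c T ∧ (AtInfinity Q ∨ HasPoint X K d Q)}.ncard : ℝ) ≤
        C * T ^ (∑ j, finrank ℤ (Pts ℚ (a j) (b j))) * Real.log T ^ (-γ) ∧
      ({Q | Q ∈ Ball c T ∧ (AtInfinity Q ∨ HasPoint X K d Q)}.ncard : ℝ) ≤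
        C * Real.log T ^ (-γ) * ((Ball (a := a) (b := b) 0 T).ncard : ℝ)) ∧
    (Dominated X P K d → ∃ κ T₀ : ℝ, 0 < κ ∧ ∀ T : ℝ, T₀ ≤ T →
      κ * ((Ball (a := a) (b := b) 0 T).ncard : ℝ) ≤
        ({Q | Q ∈ Ball (a := a) (b := b) 0 T ∧ ¬ AtInfinity Q ∧
          HasPoint X K d Q}.ncard : ℝ)) := by
  have hD : ∀ j, Pool.Agent.H901R3.MS.Disc (a j : ℚ) (b j : ℚ) := by
    intro j h0
    apply hE j
    have h1 : (4 * (a j : ℚ) ^ 3 + 27 * (b j : ℚ) ^ 2) = ((4 * a j ^ 3 + 27 * b j ^ 2 : ℤ) : ℚ) := by
      push_cast; ring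
    rw [h1] at h0
    rcases mul_eq_zero.1 h0 with h2 | h2
    · norm_num at h2
    · exact_mod_cast h2
  have hP' : AlgebraicIndependent ℚ (fun j => (crd (a := (a j : ℂ)) (b := (b j : ℂ)) (P j)).1) := by
    have h : (fun j => coord (P j) 0) =
        fun j => (crd (a := (a j : ℂ)) (b := (b j : ℂ)) (P j)).1 := by
      funext j
      exact coord_eq (P j) 0
    rw [← h]
    exact hP
  have hX' : {ζ : Fin s → ℂ | ∀ G ∈ X, eval₂ (evf (a := a) (b := b) P) ζ G = 0}.Finite :=
    hX.subset fun z hz => (mem_fibreC X P z).2 hz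
  have hdeg : ∀ (F : Subfield ℂ) (z : Fin s → ℂ), DegreeLE F d z ↔ SD F z d :=
    fun F z => (SD_iff F z d).symm
  have hpt : ∀ Q : (j : Fin r) → Pts ℚ (a j) (b j), HasPoint X K d Q ↔ ∃ z : Fin s → ℂ,
      (∀ G ∈ X, eval₂ ((algebraMap ℚ ℂ).comp (evf (a := a) (b := b) Q)) z G = 0) ∧
        SD K.toSubfield z d := by
    intro Q
    unfold HasPoint
    refine exists_congr fun z => ?_
    rw [mem_fibre, hdeg]
  obtain ⟨hd1, hd2⟩ := dich_K hr a b hD hrk P hP' X hX' K d hd
  set ρ := ∑ j, finrank ℤ (Pts ℚ (a j) (b j)) with hρ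
  constructor
  · intro hnd
    obtain ⟨γ, hγ, hball⟩ := hd1 (by
      intro n hn R S hRS hS ζ hζ hcon
      refine hnd ⟨n, hn, R, S, (isRational_iff S).2 hS, funext hRS, ζ, (mem_fibreC X P ζ).2 hζ,
        (hdeg _ _).2 ?_⟩
      exact (congrArg (fun F => SD F ζ d) (fieldOf_eq K R)).mpr hcon)
    obtain ⟨C, hC0, hC⟩ := hball γ hγ le_rfl
    obtain ⟨κ, hκ0, hκ⟩ := low_all (a := a) (b := b) hD
    have hset : ∀ (c : (j : Fin r) → Pool.Agent.H901R3.MS.Pt (a j : ℚ) (b j : ℚ)) (T : ℝ),
        {Q | Q ∈ Ball (a := a) (b := b) c T ∧ (AtInfinity Q ∨ HasPoint X K d Q)} =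
        {P : (j : Fin r) → Pool.Agent.H901R3.MS.Pt (a j : ℚ) (b j : ℚ) |
          (∀ j, hx (P j - c j) ≤ T ^ 2) ∧ ((∀ j, P j ≠ 0) →
          ∃ z : Fin s → ℂ, (∀ G ∈ X, eval₂ ((algebraMap ℚ ℂ).comp (evf P)) z G = 0) ∧
            SD K.toSubfield z d)} := by
      intro c T
      ext Q
      have h1 : (AtInfinity Q ∨ HasPoint X K d Q) ↔ ((∀ j, Q j ≠ 0) →
          ∃ z : Fin s → ℂ, (∀ G ∈ X,
            eval₂ ((algebraMap ℚ ℂ).comp (evf (a := a) (b := b) Q)) z G = 0) ∧
            SD K.toSubfield z d) := by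
        rw [← hpt Q]
        unfold AtInfinity
        constructor
        · rintro (⟨j, hj⟩ | h0) h
          · exact absurd hj (h j)
          · exact h0
        · intro h
          by_cases h0 : ∃ j, Q j = 0
          · exact Or.inl h0
          · push Not at h0
            exact Or.inr (h h0)
      exact and_congr (mem_ball c Q T) h1
    refine ⟨γ, C + C / κ, hγ, fun c T hT => ?_⟩
    obtain ⟨h1', h2'⟩ := hC T hT c
    obtain ⟨-, h3⟩ := hκ T (by linarith)
    have h1 : {Q | Q ∈ Ball c T ∧ (AtInfinity Q ∨ HasPoint X K d Q)}.Finite :=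
      (hset c T).symm ▸ h1'
    have h2 : ({Q | Q ∈ Ball c T ∧ (AtInfinity Q ∨ HasPoint X K d Q)}.ncard : ℝ) ≤
        C * T ^ ρ * Real.log T ^ (-γ) :=
      (congrArg (fun S => (S.ncard : ℝ)) (hset c T)).le.trans h2'
    have hT0 : 0 < T := by linarith
    have hlog : 0 ≤ Real.log T ^ (-γ) :=
      Real.rpow_nonneg (Real.log_nonneg (by linarith)) _
    have hpos : 0 ≤ C / κ := div_nonneg hC0 hκ0.le
    refine ⟨h1, ?_, ?_⟩
    · refine h2.trans ?_
      apply mul_le_mul_of_nonneg_right _ hlog
      apply mul_le_mul_of_nonneg_right _ (by positivity)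
      linarith
    · have hb : Ball (a := a) (b := b) 0 T =
          {P : (j : Fin r) → Pool.Agent.H901R3.MS.Pt (a j : ℚ) (b j : ℚ) |
            ∀ j, hx (P j) ≤ T ^ 2} := Set.ext fun Q => mem_ball0 Q T
      rw [hb]
      refine h2.trans ?_
      calc C * T ^ ρ * Real.log T ^ (-γ)
          = C / κ * Real.log T ^ (-γ) * (κ * T ^ ρ) := by
            field_simp
        _ ≤ C / κ * Real.log T ^ (-γ) * _ :=
            mul_le_mul_of_nonneg_left h3 (mul_nonneg hpos hlog)
        _ ≤ _ := by
            apply mul_le_mul_of_nonneg_right _ (Nat.cast_nonneg _)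
            apply mul_le_mul_of_nonneg_right _ hlog
            linarith
  · rintro ⟨n, hn, R, S, hS, hRS, z, hz, hzR⟩
    rw [hdeg, fieldOf_eq] at hzR
    obtain ⟨κ, hκ0, T0, hκ⟩ := hd2 ⟨n, hn, R, S, fun j => congrFun hRS j,
      (isRational_iff S).1 hS, z, (mem_fibreC X P z).1 hz, hzR⟩
    obtain ⟨C, hC0, hC⟩ := up_all (a := a) (b := b) hD
    refine ⟨κ / (C + 1), max T0 2, by positivity, fun T hT => ?_⟩
    have hT0 : T0 ≤ T := (le_max_left _ _).trans hT
    have hT2 : 2 ≤ T := (le_max_right _ _).trans hT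
    have h1 := hκ T hT0
    have h2 := hC T hT2
    have hb : Ball (a := a) (b := b) 0 T =
        {P : (j : Fin r) → Pool.Agent.H901R3.MS.Pt (a j : ℚ) (b j : ℚ) |
          ∀ j, hx (P j) ≤ T ^ 2} := Set.ext fun Q => mem_ball0 Q T
    have hset : {Q | Q ∈ Ball (a := a) (b := b) 0 T ∧ ¬ AtInfinity Q ∧ HasPoint X K d Q} =
        {Q : (j : Fin r) → Pool.Agent.H901R3.MS.Pt (a j : ℚ) (b j : ℚ) |
          (∀ j, hx (Q j) ≤ T ^ 2) ∧ ((∀ j, Q j ≠ 0) ∧
            ∃ z : Fin s → ℂ, (∀ G ∈ X, eval₂ ((algebraMap ℚ ℂ).comp (evf Q)) z G = 0) ∧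
              SD K.toSubfield z d)} := by
      ext Q
      have h3 : (¬ AtInfinity Q ∧ HasPoint X K d Q) ↔ ((∀ j, Q j ≠ 0) ∧
          ∃ z : Fin s → ℂ, (∀ G ∈ X,
            eval₂ ((algebraMap ℚ ℂ).comp (evf (a := a) (b := b) Q)) z G = 0) ∧
            SD K.toSubfield z d) := by
        rw [← hpt Q]
        unfold AtInfinity
        rw [not_exists]
      exact and_congr (mem_ball0 Q T) h3
    rw [hset, hb]
    refine le_trans ?_ h1
    have hTρ : 0 ≤ T ^ ρ := by positivity
    have h5 : κ / (C + 1) * (C * T ^ ρ) ≤ κ * T ^ ρ := by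
      rw [div_mul_eq_mul_div, div_le_iff₀ (by positivity)]
      have : 0 ≤ κ * T ^ ρ := mul_nonneg hκ0.le hTρ
      nlinarith
    exact (mul_le_mul_of_nonneg_left h2 (by positivity)).trans h5

end Pool.Agent.Results.MP_2ae8fe_ag.BoundedDegreeDichotomy
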