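import Pool.Agent.J4H11.GC.FinC

/-!
# Lang's conjecture, density version, for every individual ramified cyclic cover of a product of
arbitrary elliptic curves, ramified in a direction of rank at least three

`E_j : y² = x³ + a_j x + b_j` (`j = 1, …, r`) are elliptic curves over `ℚ` with infinitely many
rational points, `A = E_1 × … × E_r`, and one of them, `E_i`, has rank at least three (nothing else is
assumed on the curves). `X → A` is the cyclic cover `X : w ^ n = f` of `A`, `f = G ^ m H` with `G`, `H`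
polynomials in the affine coordinates `x_j`, `y_j` with rational coefficients. It is ramified in the
direction `E_i` : for a prime `l` with `l ∣ n`, `l ∤ m` there is a complex point `V` of `A` with
`G(V) = 0`, `H(V) ≠ 0` at which the derivative of `G` along the curve `E_i` is not zero. (Every cyclic
cover `w ^ n = f`, `f` a rational function on `A`, such that `l` does not divide the multiplicity `m`
in `f` of a prime divisor which is not the inverse image of a divisor of `∏_{j ≠ i} E_j`, is
birational to such a cover.) If the branch divisor is ample, `X` is of general type, and Lang's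
conjecture says that `X(ℚ)` is not Zariski dense.

Let `ρ` be the rank of `A(ℚ)`. The number of the points of `A(ℚ)` of height at most `T ^ 2` is
of the order of magnitude of `T ^ ρ`. Theorem: the number of those which are images of rational
points of `X` (or have a coordinate at infinity) is `O(T ^ ρ (log T) ^ (- 1/40))`. The estimate is
uniform in all the twists `δ w ^ n = f` and for all the balls of `A(ℚ)` with arbitrary centres `c`.

The proof is a Mordell-Weil sieve in a tower of primes `p_1, p_2, …`, each of which is much larger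
than the previous ones: by an argument of Gupta and Murty type, three independent points of `E_i`
generate modulo `p_m`, even after multiplication by the product of the numbers of points modulo the
previous primes, a subgroup with more than `p_m ^ (1/2 + 1/20)` elements, and the Weil bound for
correlations of translates of `f` modulo `p_m` shows that at least a third of the points of each
fibre of the tower is removed at each step.
-/

set_option autoImplicit false

namespace Pool.Agent.Results.MP_2ae8fe_ag.CyclicCoversRankThree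

open MvPolynomial Module

/-- the elliptic curve `y² = x³ + a x + b` over `ℚ` -/
def E (a b : ℤ) : WeierstrassCurve ℚ := ⟨0, 0, 0, a, b⟩

/-- the group `E(ℚ)` of the rational points of `y² = x³ + a x + b` -/
abbrev EQ (a b : ℤ) : Type := (E a b).toAffine.Point

/-- the affine coordinates `x`, `y` of a point of `E(ℚ)`; both are `0` for the point at infinity -/
def coord {a b : ℤ} : EQ a b → Fin 2 → ℚ
  | .zero => ![0, 0]
  | .some x y _ => ![x, y]

/-- the height `log (max (|p|, q))` of a point of `E(ℚ)` with `x`-coordinate `p / q` in lowest terms;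
`0` for the point at infinity -/
noncomputable def height {a b : ℤ} : EQ a b → ℝ
  | .zero => 0
  | .some x _ _ => Real.log (max (x.num.natAbs : ℝ) (x.den : ℝ))

/-- the value at `P` of a polynomial in the affine coordinates `x_j` (variable `(j, 0)`) and `y_j`
(variable `(j, 1)`) -/
noncomputable def val {r : ℕ} {a b : Fin r → ℤ} (G : MvPolynomial (Fin r × Fin 2) ℚ)
    (P : (j : Fin r) → EQ (a j) (b j)) : ℚ :=
  eval (fun v => coord (P v.1) v.2) G

theorem val_eq {r : ℕ} {a b : Fin r → ℤ} (G : MvPolynomial (Fin r × Fin 2) ℚ)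
    (P : (j : Fin r) → EQ (a j) (b j)) :
    val G P = aeval (Pool.Agent.J4H11.RC.pv
      (fun j => (Pool.Agent.J4H11.RC.crd (a := (a j : ℚ)) (b := (b j : ℚ)) (P j)).1)
      (fun j => (Pool.Agent.J4H11.RC.crd (a := (a j : ℚ)) (b := (b j : ℚ)) (P j)).2)) G := by
  unfold val
  rw [aeval_eq_eval]
  congr 2
  funext v
  obtain ⟨j, e⟩ := v
  change coord (P j) e = _
  generalize hQ : P j = Q
  rcases Pool.Agent.J4H11.RC.fin2 e with rfl | rfl
  · rw [Pool.Agent.J4H11.RC.pv_zero, hQ]
    rcases Q with _ | ⟨x, y, h⟩ <;> rfl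
  · rw [Pool.Agent.J4H11.RC.pv_one, hQ]
    rcases Q with _ | ⟨x, y, h⟩ <;> rfl

theorem height_eq {a b : ℤ} (P : EQ a b) :
    height P = Pool.Agent.J4H11.RC.hx (a := (a : ℚ)) (b := (b : ℚ)) P := by
  rcases P with _ | ⟨x, y, h⟩ <;> rfl

/-- The points of `A(ℚ)` in a ball of radius `T` (for the square root of the height) which are the
images of rational points of the twist `δ w ^ n = G ^ m H` of the cyclic cover (or have a coordinate
at infinity). -/
def Lifting {r : ℕ} (a b : Fin r → ℤ) (n m : ℕ) (G H : MvPolynomial (Fin r × Fin 2) ℚ) (δ : ℚ)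
    (c : (j : Fin r) → EQ (a j) (b j)) (T : ℝ) : Set ((j : Fin r) → EQ (a j) (b j)) :=
  {P | (∀ j, height (P j - c j) ≤ T ^ 2) ∧
    ((∀ j, P j ≠ 0) → ∃ w : ℚ, δ * w ^ n = val G P ^ m * val H P)}

theorem result (r : ℕ) (a b : Fin r → ℤ) (hE : ∀ j, 4 * a j ^ 3 + 27 * b j ^ 2 ≠ 0)
    (hinf : ∀ j, Infinite (EQ (a j) (b j)))
    -- the direction `E_i`
    (i : Fin r) (hrk : 3 ≤ finrank ℤ (EQ (a i) (b i)))
    -- the cover `w ^ n = G ^ m H`
    (n m l : ℕ) (hl : l.Prime) (hn : l ∣ n) (hm : ¬ l ∣ m)
    (G H : MvPolynomial (Fin r × Fin 2) ℚ)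
    -- it is ramified in the direction `E_i`
    (V : Fin r × Fin 2 → ℂ) (hV : ∀ j, V (j, 1) ^ 2 = V (j, 0) ^ 3 + a j * V (j, 0) + b j)
    (hG : aeval V G = 0) (hH : aeval V H ≠ 0)
    (hGi : 2 * V (i, 1) * aeval V (pderiv (i, 0) G) +
      (3 * V (i, 0) ^ 2 + a i) * aeval V (pderiv (i, 1) G) ≠ 0) :
    ∃ C : ℝ, ∀ (δ : ℚ) (c : (j : Fin r) → EQ (a j) (b j)) (T : ℝ), 2 ≤ T →
      (Lifting a b n m G H δ c T).Finite ∧
      ((Lifting a b n m G H δ c T).ncard : ℝ) ≤
        C * T ^ (∑ j, finrank ℤ (EQ (a j) (b j))) * Real.log T ^ (-(1 / 40) : ℝ) ∧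
      ((Lifting a b n m G H δ c T).ncard : ℝ) ≤
        C * Real.log T ^ (-(1 / 40) : ℝ) *
          ({P : (j : Fin r) → EQ (a j) (b j) | ∀ j, height (P j) ≤ T ^ 2}.ncard : ℝ) := by
  classical
  have hD : ∀ j, Pool.Agent.H901R3.MS.Disc (a j : ℚ) (b j : ℚ) := by
    intro j h0
    apply hE j
    have h1 : (4 * (a j : ℚ) ^ 3 + 27 * (b j : ℚ) ^ 2) = ((4 * a j ^ 3 + 27 * b j ^ 2 : ℤ) : ℚ) := by
      push_cast; ring
    rw [h1] at h0
    rcases mul_eq_zero.1 h0 with h2 | h2
    · norm_num at h2
    · exact_mod_cast h2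
  have hpv : Pool.Agent.J4H11.RC.pv (fun j => V (j, 0)) (fun j => V (j, 1)) = V := by
    funext v
    obtain ⟨j, e⟩ := v
    rcases Pool.Agent.J4H11.RC.fin2 e with rfl | rfl <;> rfl
  obtain ⟨C, hC0, hC⟩ := Pool.Agent.J4H11.GC.main_rat2 i hD hinf hrk l hl
    n m hn hm G H (fun j => V (j, 0)) (fun j => V (j, 1)) hV
    (by rw [hpv]; exact hG) (by rw [hpv]; exact hH) (by
      rw [hpv, Pool.Agent.J4H11.RC.Wp]
      simp only [map_add, map_mul, map_pow, aeval_X, map_intCast, map_ofNat]
      exact hGi)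
  obtain ⟨κ, hκ0, hκ⟩ := Pool.Agent.J4H11.RC.low_all (a := a) (b := b) hD
  have hset : ∀ (δ : ℚ) (c : (j : Fin r) → Pool.Agent.H901R3.MS.Pt (a j : ℚ) (b j : ℚ)) (T : ℝ),
      Lifting a b n m G H δ c T =
      {P : (j : Fin r) → Pool.Agent.H901R3.MS.Pt (a j : ℚ) (b j : ℚ) |
        (∀ j, Pool.Agent.J4H11.RC.hx (P j - c j) ≤ T ^ 2) ∧
        ((∀ j, P j ≠ 0) → ∃ w : ℚ, δ * w ^ n =
          aeval (Pool.Agent.J4H11.RC.pv (fun j => (Pool.Agent.J4H11.RC.crd (P j)).1)
            (fun j => (Pool.Agent.J4H11.RC.crd (P j)).2)) G ^ m *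
          aeval (Pool.Agent.J4H11.RC.pv (fun j => (Pool.Agent.J4H11.RC.crd (P j)).1)
            (fun j => (Pool.Agent.J4H11.RC.crd (P j)).2)) H)} := by
    intro δ c T
    unfold Lifting
    simp only [val_eq, height_eq]
    rfl
  refine ⟨C + C / κ, fun δ c T hT => ?_⟩
  obtain ⟨h1', h2'⟩ := hC δ T hT c
  obtain ⟨-, h3⟩ := hκ T (by linarith)
  have h1 : (Lifting a b n m G H δ c T).Finite := (hset δ c T).symm ▸ h1'
  have h2 : ((Lifting a b n m G H δ c T).ncard : ℝ) ≤
      C * T ^ (∑ j, finrank ℤ (EQ (a j) (b j))) * Real.log T ^ (-(1 / 40) : ℝ) :=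
    (congrArg (fun S => (S.ncard : ℝ)) (hset δ c T)).le.trans h2'
  have hT0 : 0 < T := by linarith
  have hlog : 0 ≤ Real.log T ^ (-(1 / 40) : ℝ) :=
    Real.rpow_nonneg (Real.log_nonneg (by linarith)) _
  have hpos : 0 ≤ C / κ := div_nonneg hC0 hκ0.le
  refine ⟨h1, ?_, ?_⟩
  · refine h2.trans ?_
    apply mul_le_mul_of_nonneg_right _ hlog
    apply mul_le_mul_of_nonneg_right _ (by positivity)
    linarith
  · have hball : {P : (j : Fin r) → EQ (a j) (b j) | ∀ j, height (P j) ≤ T ^ 2} =
        {P : (j : Fin r) → Pool.Agent.H901R3.MS.Pt (a j : ℚ) (b j : ℚ) |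
          ∀ j, Pool.Agent.J4H11.RC.hx (P j) ≤ T ^ 2} := by
      simp only [height_eq]
      rfl
    rw [hball]
    refine h2.trans ?_
    calc C * T ^ (∑ j, finrank ℤ (EQ (a j) (b j))) * Real.log T ^ (-(1 / 40) : ℝ)
        = C / κ * Real.log T ^ (-(1 / 40) : ℝ) *
            (κ * T ^ (∑ j, finrank ℤ (EQ (a j) (b j)))) := by
          field_simp
      _ ≤ C / κ * Real.log T ^ (-(1 / 40) : ℝ) * _ :=
          mul_le_mul_of_nonneg_left h3 (mul_nonneg hpos hlog)
      _ ≤ _ := by
          apply mul_le_mul_of_nonneg_right _ (Nat.cast_nonneg _)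
          apply mul_le_mul_of_nonneg_right _ hlog
          linarith

end Pool.Agent.Results.MP_2ae8fe_ag.CyclicCoversRankThree
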