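import Pool.Agent.J4H11.GQ.Z11

/-!
# Lang's conjecture, density version, for all ramified covers of products of elliptic curves

`E_j : y² = x³ + a_j x + b_j` (`j = 1, …, r`) are elliptic curves over `ℚ` of rank at least three,
`A = E_1 × … × E_r`, `ρ` is the rank of `A(ℚ)`, and `P` is a point of `A(ℂ)` with algebraically
independent `x`-coordinates (a generic point of `A`).

`X : Φ(Q, w) = 0` is a cover of `A`, with `Φ` monic in `w`. Every variety over `ℚ` with a dominant
generically finite map to `A` is, up to proper closed subsets, a component of such an `X`, and it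
corresponds to a root `w` of `Φ(P, w)`, with function field `ℚ(P, w)`.

The only assumption on `X` is that no root `w` of `Φ(P, w)` lies in a field `ℚ(R)`, where `R` is a
point of `A(ℂ)` with `n R + S = P` for some `n ≥ 1` and some rational point `S`. The extension
`ℚ(R)` of `ℚ(P)` is given by the étale map `Q ↦ n Q + S` from `A` to `A`, so the assumption is
satisfied when no component of `X` is étale over `A` (up to birational maps), for example for every
`X` whose components are of general type, since an étale cover of `A` has Kodaira dimension zero. If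
the assumption does not hold then `Φ(n Q + S, w) = 0` has a rational root `w` for all `Q ∈ A(ℚ)`
outside of a proper closed subset; so the assumption is necessary for the result.

The result is that the points of `A(ℚ)` over which `X` has a rational point have density zero in
`A(ℚ)`: there is `γ > 0` such that in every ball of radius `T` (for the square root of the height)
there are at most `C T ^ ρ (log T) ^ (- γ)` of them. Lang's conjecture for `X` of general type says
that these points are contained in a proper closed subset of `A`. There is no condition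
on the monodromy group of `X`, on the directions in which `X` is ramified, or on the étale covers
of `A` which are dominated by `X`.

The proof. (1) One finds a finite number of pairs `(m, S)`, with `m ∈ ℕ^r` and `S ∈ A(ℚ)`, such that
the cosets `m A(ℚ) + S` cover `A(ℚ)`, and for the point `R` with `m R + S = P` the
étale part of the cover of `A` given by `w`, and of its Galois closure, in each direction
`E_1, …, E_r` successively, is defined over the algebraic closure of the field of the
previous coordinates. (2) The rings of functions of the resulting towers of curves satisfy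
equidistribution: for `H = H_1 × … × H_r ⊂ A(𝔽_p)` with `|H_j| ≥ p ^ (1 / 2 + κ)`, the number of the
homomorphisms to `𝔽_p` above a coset of `H` is `(e + o(1)) |H|`, where `e` is the number of the
roots modulo `p` of a polynomial which generates the field of the constants. This uses
Weil's bound for the curves in the tower and their translates, and a second moment computation.
(3) If `w ∉ ℚ(R)` and the constants of `ℚ(R, w)` are rational, then the field of the Galois closure
has two different embeddings of `ℚ(R, w)`, and for the primes which split in its field of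
constants a positive proportion of every coset of `H` has no preimage in `X(𝔽_p)`. (4) A
Mordell-Weil sieve in towers of such primes gives the result; the images of the `E_j(ℚ)` in
`E_j(𝔽_p)` have at least `p ^ (1 / 2 + κ)` elements for almost all primes because the ranks are at
least three.
-/

set_option autoImplicit false

namespace Pool.Agent.Results.MP_2ae8fe_ag.RamifiedCoversRankThree

open MvPolynomial Module

/-- the elliptic curve `y² = x³ + a x + b` over the field `F` -/
def E (F : Type) [Field F] (a b : ℤ) : WeierstrassCurve F := ⟨0, 0, 0, a, b⟩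

/-- the group of the points of `y² = x³ + a x + b` with coordinates in `F` -/
abbrev Pts (F : Type) [Field F] (a b : ℤ) : Type := (E F a b).toAffine.Point

/-- the affine coordinates `x`, `y` of a point; both are `0` for the point at infinity -/
def coord {F : Type} [Field F] {a b : ℤ} : Pts F a b → Fin 2 → F
  | .zero => ![0, 0]
  | .some x y _ => ![x, y]

/-- the height `log (max (|p|, q))` of a rational point with `x`-coordinate `p / q` in lowest terms;
`0` for the point at infinity -/
noncomputable def height {a b : ℤ} : Pts ℚ a b → ℝ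
  | .zero => 0
  | .some x _ _ => Real.log (max (x.num.natAbs : ℝ) (x.den : ℝ))

section
variable {r : ℕ} {a b : Fin r → ℤ}

/-- the value at a point `Q` of `A` of a polynomial in the coordinates `x_j` (variable `(j, 0)`) and
`y_j` (variable `(j, 1)`) -/
noncomputable def val {F : Type} [Field F] (Q : (j : Fin r) → Pts F (a j) (b j)) :
    MvPolynomial (Fin r × Fin 2) ℤ →+* F :=
  (aeval (fun v => coord (Q v.1) v.2)).toRingHom

/-- the field `ℚ(R)` generated by the coordinates of the point `R` of `A(ℂ)` -/
noncomputable def fieldOf (R : (j : Fin r) → Pts ℂ (a j) (b j)) : IntermediateField ℚ ℂ :=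
  IntermediateField.adjoin ℚ (Set.range (fun v : Fin r × Fin 2 => coord (R v.1) v.2))

/-- the coordinates of the point `S` of `A(ℂ)` are rational numbers, that is, `S` is in `A(ℚ)` -/
def IsRational (S : (j : Fin r) → Pts ℂ (a j) (b j)) : Prop :=
  ∀ j e, ∃ q : ℚ, coord (S j) e = q

/-- The points of `A(ℚ)` in a ball of radius `T` (for the square root of the height) over which the
cover `Φ(Q, w) = 0` has a rational point (or which have a coordinate at infinity). -/
def Lifting (Φ : Polynomial (MvPolynomial (Fin r × Fin 2) ℤ))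
    (c : (j : Fin r) → Pts ℚ (a j) (b j)) (T : ℝ) : Set ((j : Fin r) → Pts ℚ (a j) (b j)) :=
  {Q | (∀ j, height (Q j - c j) ≤ T ^ 2) ∧ ((∀ j, Q j ≠ 0) → ∃ w : ℚ, Φ.eval₂ (val Q) w = 0)}

end

section
open Pool.Agent.J4H11.RC Pool.Agent.J4H11.SC Pool.Agent.J4H11.GN Pool.Agent.J4H11.GP
  Pool.Agent.J4H11.GQ Pool.Agent.H901R3.MS

theorem coord_eq {F : Type} [Field F] {a b : ℤ} (P : Pts F a b) (e : Fin 2) :
    coord P e = ![(crd (a := (a : F)) (b := (b : F)) P).1,
      (crd (a := (a : F)) (b := (b : F)) P).2] e := by
  rcases P with _ | ⟨x, y, h⟩ <;> rfl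

theorem height_eq {a b : ℤ} (P : Pts ℚ a b) :
    height P = hx (a := (a : ℚ)) (b := (b : ℚ)) P := by
  rcases P with _ | ⟨x, y, h⟩ <;> rfl

variable {r : ℕ} {a b : Fin r → ℤ}

theorem val_eq {F : Type} [Field F] (Q : (j : Fin r) → Pts F (a j) (b j)) :
    val Q = evp (fun j => (crd (a := (a j : F)) (b := (b j : F)) (Q j)).1)
      (fun j => (crd (a := (a j : F)) (b := (b j : F)) (Q j)).2) := by
  apply MvPolynomial.ringHom_ext
  · intro n
    rw [← RingHom.comp_apply, ← RingHom.comp_apply]
    congr 1
    exact RingHom.ext_int _ _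
  · rintro ⟨j, e⟩
    change aeval _ (X (j, e)) = _
    rw [aeval_X]
    rcases fin2 e with rfl | rfl
    · rw [evp_x]
      exact coord_eq (Q j) 0
    · rw [evp_y]
      exact coord_eq (Q j) 1

end

open Pool.Agent.J4H11.RC Pool.Agent.J4H11.SC Pool.Agent.J4H11.GN Pool.Agent.J4H11.GP
  Pool.Agent.J4H11.GQ in
theorem result (r : ℕ) (hr : 1 ≤ r) (a b : Fin r → ℤ)
    (hE : ∀ j, 4 * a j ^ 3 + 27 * b j ^ 2 ≠ 0)
    (hrk : ∀ j, 3 ≤ finrank ℤ (Pts ℚ (a j) (b j)))
    -- a generic point `P` of `A`
    (P : (j : Fin r) → Pts ℂ (a j) (b j))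
    (hP : AlgebraicIndependent ℚ (fun j => coord (P j) 0))
    -- the cover `Φ(Q, w) = 0`
    (Φ : Polynomial (MvPolynomial (Fin r × Fin 2) ℤ)) (hΦ : Φ.Monic)
    (hram : ∀ n : ℕ, 1 ≤ n → ∀ R S : (j : Fin r) → Pts ℂ (a j) (b j), IsRational S →
      n • R + S = P → ∀ w : ℂ, Φ.eval₂ (val P) w = 0 → w ∉ fieldOf R) :
    ∃ γ C : ℝ, 0 < γ ∧ ∀ (c : (j : Fin r) → Pts ℚ (a j) (b j)) (T : ℝ), 2 ≤ T →
      (Lifting Φ c T).Finite ∧
      ((Lifting Φ c T).ncard : ℝ) ≤
        C * T ^ (∑ j, finrank ℤ (Pts ℚ (a j) (b j))) * Real.log T ^ (-γ) ∧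
      ((Lifting Φ c T).ncard : ℝ) ≤
        C * Real.log T ^ (-γ) *
          ({Q : (j : Fin r) → Pts ℚ (a j) (b j) | ∀ j, height (Q j) ≤ T ^ 2}.ncard : ℝ) := by
  have hD : ∀ j, Pool.Agent.H901R3.MS.Disc (a j : ℚ) (b j : ℚ) := by
    intro j h0
    apply hE j
    have h1 : (4 * (a j : ℚ) ^ 3 + 27 * (b j : ℚ) ^ 2) = ((4 * a j ^ 3 + 27 * b j ^ 2 : ℤ) : ℚ) := by
      push_cast; ring
    rw [h1] at h0
    rcases mul_eq_zero.1 h0 with h2 | h2
    · norm_num at h2
    · exact_mod_cast h2
  have hP' : AlgebraicIndependent ℚ (fun j => (crd (a := (a j : ℂ)) (b := (b j : ℂ)) (P j)).1) := by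
    have h : (fun j => coord (P j) 0) =
        fun j => (crd (a := (a j : ℂ)) (b := (b j : ℂ)) (P j)).1 := by
      funext j
      exact coord_eq (P j) 0
    rw [← h]
    exact hP
  obtain ⟨γ, hγ, hball⟩ := ball_fin hr a b hD hrk P hP' Φ hΦ (by
    intro n hn R S hRS hS w hw hwR
    refine hram n hn R S ?_ (funext hRS) w ?_ ?_
    · intro j e
      obtain ⟨q, hq⟩ := hS j
      have h1 := coord_eq (a := a j) (b := b j) (S j) e
      rw [hq] at h1
      rcases fin2 e with rfl | rfl
      · exact ⟨q.1, h1⟩
      · exact ⟨q.2, h1⟩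
    · rw [Polynomial.IsRoot.def, Polynomial.eval_map] at hw
      rw [val_eq]
      exact hw
    · have hle : Subfield.closure (Set.range (fun j =>
          (crd (a := (a j : ℂ)) (b := (b j : ℂ)) (R j)).1) ∪
          Set.range (fun j => (crd (a := (a j : ℂ)) (b := (b j : ℂ)) (R j)).2)) ≤
          (fieldOf R).toSubfield := by
        rw [Subfield.closure_le]
        rintro z (⟨j, rfl⟩ | ⟨j, rfl⟩)
        · exact IntermediateField.subset_adjoin ℚ _ ⟨(j, 0), coord_eq (R j) 0⟩
        · exact IntermediateField.subset_adjoin ℚ _ ⟨(j, 1), coord_eq (R j) 1⟩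
      exact hle hwR)
  obtain ⟨C, hC0, hC⟩ := hball γ hγ le_rfl
  obtain ⟨κ, hκ0, hκ⟩ := low_all (a := a) (b := b) hD
  have hset : ∀ (c : (j : Fin r) → Pool.Agent.H901R3.MS.Pt (a j : ℚ) (b j : ℚ)) (T : ℝ),
      Lifting Φ c T =
      {P : (j : Fin r) → Pool.Agent.H901R3.MS.Pt (a j : ℚ) (b j : ℚ) |
        (∀ j, hx (P j - c j) ≤ T ^ 2) ∧ ((∀ j, P j ≠ 0) →
        ∃ u : ℚ, (Φ.map (evp (fun j => (crd (P j)).1) (fun j => (crd (P j)).2))).IsRoot u)} := by
    intro c T
    unfold Lifting
    ext Q
    simp only [Set.mem_ofPred_eq, height_eq, val_eq, Polynomial.IsRoot.def, Polynomial.eval_map]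
    rfl
  refine ⟨γ, C + C / κ, hγ, fun c T hT => ?_⟩
  obtain ⟨h1', h2'⟩ := hC T hT c
  obtain ⟨-, h3⟩ := hκ T (by linarith)
  have h1 : (Lifting Φ c T).Finite := (hset c T).symm ▸ h1'
  have h2 : ((Lifting Φ c T).ncard : ℝ) ≤
      C * T ^ (∑ j, finrank ℤ (Pts ℚ (a j) (b j))) * Real.log T ^ (-γ) :=
    (congrArg (fun S => (S.ncard : ℝ)) (hset c T)).le.trans h2'
  have hT0 : 0 < T := by linarith
  have hlog : 0 ≤ Real.log T ^ (-γ) :=
    Real.rpow_nonneg (Real.log_nonneg (by linarith)) _
  have hpos : 0 ≤ C / κ := div_nonneg hC0 hκ0.le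
  refine ⟨h1, ?_, ?_⟩
  · refine h2.trans ?_
    apply mul_le_mul_of_nonneg_right _ hlog
    apply mul_le_mul_of_nonneg_right _ (by positivity)
    linarith
  · have hball : {Q : (j : Fin r) → Pts ℚ (a j) (b j) | ∀ j, height (Q j) ≤ T ^ 2} =
        {P : (j : Fin r) → Pool.Agent.H901R3.MS.Pt (a j : ℚ) (b j : ℚ) |
          ∀ j, hx (P j) ≤ T ^ 2} := by
      simp only [height_eq]
      rfl
    rw [hball]
    refine h2.trans ?_
    calc C * T ^ (∑ j, finrank ℤ (Pts ℚ (a j) (b j))) * Real.log T ^ (-γ)
        = C / κ * Real.log T ^ (-γ) *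
            (κ * T ^ (∑ j, finrank ℤ (Pts ℚ (a j) (b j)))) := by
          field_simp
      _ ≤ C / κ * Real.log T ^ (-γ) * _ :=
          mul_le_mul_of_nonneg_left h3 (mul_nonneg hpos hlog)
      _ ≤ _ := by
          apply mul_le_mul_of_nonneg_right _ (Nat.cast_nonneg _)
          apply mul_le_mul_of_nonneg_right _ hlog
          linarith

end Pool.Agent.Results.MP_2ae8fe_ag.RamifiedCoversRankThree
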