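import Pool.Agent.J4H11.SC.FinS

/-!
# Lang's conjecture, density version, for covers of products of elliptic curves with full symmetric
monodromy group

`E_j : y² = x³ + a_j x + b_j` (`j = 1, …, r`) are elliptic curves over `ℚ` with infinitely many
rational points, `A = E_1 × … × E_r`, and one of them, `E_i`, has rank at least three. `X → A` is a
cover of degree `d ≥ 2` which is not assumed to be cyclic, or Galois : `X : Φ(P, w) = 0` where `Φ` is
monic of degree `d` in `w` with coefficients which are polynomials in the affine coordinates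
`x_j`, `y_j` with integer coefficients (every cover of `A` is birational to such a cover). There are
two assumptions.

* Over a very general point `P` of `∏_{j ≠ i} E_j(ℂ)` (with algebraically independent coordinates
  `x_j`) the cover `Φ(P, R, w) = 0` of the curve `E_i` has the full symmetric group as its monodromy
  group : the Galois group of `Φ(P, x, y, w)` over the function field `ℂ(E_i) = ℂ(x, y)` has `d!`
  elements.
* The discriminant of `Φ` has a simple zero in the direction `E_i` : there is a complex point `V` of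
  `A` at which the discriminant vanishes and its derivative along the curve `E_i` does not.

This is the generic situation (simple branching and full monodromy group). If the branch divisor is
ample, `X` is of general type, and Lang's conjecture says that `X(ℚ)` is not Zariski dense.

Let `ρ` be the rank of `A(ℚ)`. The number of the points of `A(ℚ)` of height at most `T ^ 2` is
of the order of magnitude of `T ^ ρ`. Theorem: the number of those which are images of rational
points of `X` (or have a coordinate at infinity) is `O(T ^ ρ (log T) ^ (- 1 / (28 d)))`, also for all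
the balls of `A(ℚ)` with arbitrary centres `c`.

The proof is a Mordell-Weil sieve in a tower of primes. Modulo a prime `p`, the numbers of the roots
of `Φ` at `R` and at `R + h` (`R` in `E_i(F_p)`) are almost independent for almost all `h`, in the
sense that the number of the pairs of one or two distinct roots at `R` and one or two distinct roots
at `R + h` is `p + O(√p)`. This is Weil's bound for a curve which is irreducible because the joint
Galois group of the two covers is the whole product of the two symmetric groups, by Goursat's lemma :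
otherwise the product of the two discriminants would be a square, but it has a simple zero. Hence
in every coset of a subgroup of `E_i(F_p)` with more than `p ^ (1/2 + κ)` elements the polynomial
`Φ` has no root at a proportion of at least `1 / (2 d)` of the points.
-/

set_option autoImplicit false

namespace Pool.Agent.Results.MP_2ae8fe_ag.SymmetricCoversRankThree

open MvPolynomial Module

/-- the elliptic curve `y² = x³ + a x + b` over `ℚ` -/
def E (a b : ℤ) : WeierstrassCurve ℚ := ⟨0, 0, 0, a, b⟩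

/-- the group `E(ℚ)` of the rational points of `y² = x³ + a x + b` -/
abbrev EQ (a b : ℤ) : Type := (E a b).toAffine.Point

/-- the affine coordinates `x`, `y` of a point of `E(ℚ)`; both are `0` for the point at infinity -/
def coord {a b : ℤ} : EQ a b → Fin 2 → ℚ
  | .zero => ![0, 0]
  | .some x y _ => ![x, y]

/-- the height `log (max (|p|, q))` of a point of `E(ℚ)` with `x`-coordinate `p / q` in lowest terms;
`0` for the point at infinity -/
noncomputable def height {a b : ℤ} : EQ a b → ℝ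
  | .zero => 0
  | .some x _ _ => Real.log (max (x.num.natAbs : ℝ) (x.den : ℝ))

theorem height_eq {a b : ℤ} (P : EQ a b) :
    height P = Pool.Agent.J4H11.RC.hx (a := (a : ℚ)) (b := (b : ℚ)) P := by
  rcases P with _ | ⟨x, y, h⟩ <;> rfl

/-- `Φ(P, w)` : the value at `P` of a polynomial `Φ` in `w` whose coefficients are polynomials in the
affine coordinates `x_j` (variable `(j, 0)`) and `y_j` (variable `(j, 1)`) -/
noncomputable def val {r : ℕ} {a b : Fin r → ℤ}
    (Φ : Polynomial (MvPolynomial (Fin r × Fin 2) ℤ)) (P : (j : Fin r) → EQ (a j) (b j)) (w : ℚ) :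
    ℚ :=
  Φ.eval₂ (eval₂Hom (Int.castRingHom ℚ) (fun v => coord (P v.1) v.2)) w

theorem val_eq {r : ℕ} {a b : Fin r → ℤ} (Φ : Polynomial (MvPolynomial (Fin r × Fin 2) ℤ))
    (P : (j : Fin r) → EQ (a j) (b j)) (w : ℚ) :
    val Φ P w = 0 ↔ (Φ.map (Pool.Agent.J4H11.SC.evp
      (fun j => (Pool.Agent.J4H11.RC.crd (a := (a j : ℚ)) (b := (b j : ℚ)) (P j)).1)
      (fun j => (Pool.Agent.J4H11.RC.crd (a := (a j : ℚ)) (b := (b j : ℚ)) (P j)).2))).IsRoot w := by
  rw [Polynomial.IsRoot.def, Polynomial.eval_map]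
  unfold val Pool.Agent.J4H11.SC.evp
  have h : (fun v : Fin r × Fin 2 => coord (P v.1) v.2) = Pool.Agent.J4H11.RC.pv
      (fun j => (Pool.Agent.J4H11.RC.crd (a := (a j : ℚ)) (b := (b j : ℚ)) (P j)).1)
      (fun j => (Pool.Agent.J4H11.RC.crd (a := (a j : ℚ)) (b := (b j : ℚ)) (P j)).2) := by
    funext v
    obtain ⟨j, e⟩ := v
    change coord (P j) e = _
    generalize hQ : P j = Q
    rcases Pool.Agent.J4H11.RC.fin2 e with rfl | rfl
    · rw [Pool.Agent.J4H11.RC.pv_zero, hQ]
      rcases Q with _ | ⟨x, y, h⟩ <;> rfl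
    · rw [Pool.Agent.J4H11.RC.pv_one, hQ]
      rcases Q with _ | ⟨x, y, h⟩ <;> rfl
  rw [h]
  rfl

/-- The points of `A(ℚ)` in a ball of radius `T` (for the square root of the height) which are the
images of rational points of the cover `Φ(P, w) = 0` (or have a coordinate at infinity). -/
def Lifting {r : ℕ} (a b : Fin r → ℤ) (Φ : Polynomial (MvPolynomial (Fin r × Fin 2) ℤ))
    (c : (j : Fin r) → EQ (a j) (b j)) (T : ℝ) : Set ((j : Fin r) → EQ (a j) (b j)) :=
  {P | (∀ j, height (P j - c j) ≤ T ^ 2) ∧ ((∀ j, P j ≠ 0) → ∃ w : ℚ, val Φ P w = 0)}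

/-- the elliptic curve `y² = x³ + a x + b` over `ℂ` -/
def EC (a b : ℤ) : WeierstrassCurve ℂ := ⟨0, 0, 0, a, b⟩

/-- the field `ℂ(x, y)` of the rational functions on `y² = x³ + a x + b` -/
abbrev FF (a b : ℤ) : Type := (EC a b).toAffine.FunctionField

/-- the functions `x` and `y` -/
noncomputable def gen (a b : ℤ) : Fin 2 → FF a b :=
  ![algebraMap _ _ (WeierstrassCurve.Affine.CoordinateRing.mk (EC a b).toAffine
      (Polynomial.C Polynomial.X)),
    algebraMap _ _ (WeierstrassCurve.Affine.CoordinateRing.mk (EC a b).toAffine Polynomial.X)]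

/-- the polynomial `Φ(P, x, y, w)` in `w` over the function field `ℂ(x, y)` of the curve `E_i`, for a
point `P` of the product of the other curves -/
noncomputable def overCurve {r : ℕ} (a b : Fin r → ℤ) (i : Fin r)
    (Φ : Polynomial (MvPolynomial (Fin r × Fin 2) ℤ)) (P : {j : Fin r // j ≠ i} × Fin 2 → ℂ) :
    Polynomial (FF (a i) (b i)) :=
  Φ.map (eval₂Hom (Int.castRingHom (FF (a i) (b i))) (fun v : Fin r × Fin 2 =>
    if h : v.1 = i then gen (a i) (b i) v.2 else
      algebraMap ℂ (FF (a i) (b i)) (P (⟨v.1, h⟩, v.2))))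

theorem overCurve_eq {r : ℕ} (a b : Fin r → ℤ) (i : Fin r)
    (Φ : Polynomial (MvPolynomial (Fin r × Fin 2) ℤ)) (P : {j : Fin r // j ≠ i} × Fin 2 → ℂ) :
    overCurve a b i Φ P = Φ.map (Pool.Agent.J4H11.SC.evp
      (Pool.Agent.J4H11.RC.ext i (fun j => algebraMap ℂ
        (Pool.Agent.J4H11.SC.FFd (a i : ℂ) (b i : ℂ)) (P (j, 0)))
        (Pool.Agent.J4H11.SC.gX (a i : ℂ) (b i : ℂ)))
      (Pool.Agent.J4H11.RC.ext i (fun j => algebraMap ℂ
        (Pool.Agent.J4H11.SC.FFd (a i : ℂ) (b i : ℂ)) (P (j, 1)))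
        (Pool.Agent.J4H11.SC.gY (a i : ℂ) (b i : ℂ)))) := by
  unfold overCurve Pool.Agent.J4H11.SC.evp
  have h : (fun v : Fin r × Fin 2 => if h : v.1 = i then gen (a i) (b i) v.2 else
    algebraMap ℂ (FF (a i) (b i)) (P (⟨v.1, h⟩, v.2))) = Pool.Agent.J4H11.RC.pv
      (Pool.Agent.J4H11.RC.ext i (fun j => algebraMap ℂ
        (Pool.Agent.J4H11.SC.FFd (a i : ℂ) (b i : ℂ)) (P (j, 0)))
        (Pool.Agent.J4H11.SC.gX (a i : ℂ) (b i : ℂ)))
      (Pool.Agent.J4H11.RC.ext i (fun j => algebraMap ℂ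
        (Pool.Agent.J4H11.SC.FFd (a i : ℂ) (b i : ℂ)) (P (j, 1)))
        (Pool.Agent.J4H11.SC.gY (a i : ℂ) (b i : ℂ))) := by
    funext v
    obtain ⟨j, e⟩ := v
    rcases Pool.Agent.J4H11.RC.fin2 e with rfl | rfl
    · rw [Pool.Agent.J4H11.RC.pv_zero]
      unfold Pool.Agent.J4H11.RC.ext
      by_cases hj : j = i
      · rw [dif_pos hj, dif_pos hj]
        rfl
      · rw [dif_neg hj, dif_neg hj]
        rfl
    · rw [Pool.Agent.J4H11.RC.pv_one]
      unfold Pool.Agent.J4H11.RC.ext
      by_cases hj : j = i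
      · rw [dif_pos hj, dif_pos hj]
        rfl
      · rw [dif_neg hj, dif_neg hj]
        rfl
  rw [h]
  rfl

theorem expo (d : ℕ) (hd : 2 ≤ d) :
    (1 - 1 / ((2 * d : ℕ) : ℝ)) * (1000 : ℝ) ^ (2 * (1 / (28 * (d : ℝ)))) ≤ 1 := by
  have hd0 : (0 : ℝ) < d := by exact_mod_cast (by omega : 0 < d)
  have h1 : (1000 : ℝ) ≤ Real.exp 7 := by
    have h2 : (2.7182818283 : ℝ) < Real.exp 1 := Real.exp_one_gt_d9
    have h3 : Real.exp 7 = Real.exp 1 ^ 7 := by
      rw [← Real.exp_nat_mul]
      norm_num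
    rw [h3]
    calc (1000 : ℝ) ≤ 2.7182818283 ^ 7 := by norm_num
      _ ≤ _ := pow_le_pow_left₀ (by norm_num) h2.le 7
  have h4 : (1000 : ℝ) ^ (2 * (1 / (28 * (d : ℝ)))) ≤ Real.exp (1 / (2 * d)) := by
    calc (1000 : ℝ) ^ (2 * (1 / (28 * (d : ℝ)))) ≤ (Real.exp 7) ^ (2 * (1 / (28 * (d : ℝ)))) :=
          Real.rpow_le_rpow (by norm_num) h1 (by positivity)
      _ = Real.exp (1 / (2 * d)) := by
          rw [← Real.exp_mul]
          congr 1
          field_simp
          norm_num
  have h5 : (1 - 1 / ((2 * d : ℕ) : ℝ)) ≤ Real.exp (-(1 / (2 * d))) := by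
    have h6 := Real.add_one_le_exp (-(1 / (2 * (d : ℝ))))
    push_cast
    linarith
  have h7 : (0 : ℝ) ≤ 1 - 1 / ((2 * d : ℕ) : ℝ) := by
    push_cast
    rw [sub_nonneg, div_le_one (by positivity)]
    have : (2 : ℝ) ≤ d := by exact_mod_cast hd
    linarith
  calc (1 - 1 / ((2 * d : ℕ) : ℝ)) * (1000 : ℝ) ^ (2 * (1 / (28 * (d : ℝ)))) ≤
      Real.exp (-(1 / (2 * d))) * Real.exp (1 / (2 * d)) :=
        mul_le_mul h5 h4 (by positivity) (Real.exp_pos _).le
    _ = 1 := by rw [← Real.exp_add, neg_add_cancel, Real.exp_zero]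

theorem result (r : ℕ) (a b : Fin r → ℤ) (hE : ∀ j, 4 * a j ^ 3 + 27 * b j ^ 2 ≠ 0)
    (hinf : ∀ j, Infinite (EQ (a j) (b j)))
    -- the direction `E_i`
    (i : Fin r) (hrk : 3 ≤ finrank ℤ (EQ (a i) (b i)))
    -- the cover `Φ(P, w) = 0` of degree `d`
    (d : ℕ) (hd : 2 ≤ d) (Φ : Polynomial (MvPolynomial (Fin r × Fin 2) ℤ)) (hΦ : Φ.Monic)
    (hΦd : Φ.natDegree = d)
    -- its monodromy group over a very general point is the full symmetric group
    (P : {j : Fin r // j ≠ i} × Fin 2 → ℂ)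
    (hP : ∀ j, P (j, 1) ^ 2 = P (j, 0) ^ 3 + a j * P (j, 0) + b j)
    (hPi : AlgebraicIndependent ℚ (fun j => P (j, 0)))
    (hGal : Nat.card (overCurve a b i Φ P).Gal = d.factorial)
    -- its discriminant has a simple zero in the direction `E_i`
    (V : Fin r × Fin 2 → ℂ) (hV : ∀ j, V (j, 1) ^ 2 = V (j, 0) ^ 3 + a j * V (j, 0) + b j)
    (hdisc : aeval V Φ.discr = 0)
    (hdi : 2 * V (i, 1) * aeval V (pderiv (i, 0) Φ.discr) +
      (3 * V (i, 0) ^ 2 + a i) * aeval V (pderiv (i, 1) Φ.discr) ≠ 0) :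
    ∃ C : ℝ, ∀ (c : (j : Fin r) → EQ (a j) (b j)) (T : ℝ), 2 ≤ T →
      (Lifting a b Φ c T).Finite ∧
      ((Lifting a b Φ c T).ncard : ℝ) ≤
        C * T ^ (∑ j, finrank ℤ (EQ (a j) (b j))) * Real.log T ^ (-(1 / (28 * d)) : ℝ) ∧
      ((Lifting a b Φ c T).ncard : ℝ) ≤
        C * Real.log T ^ (-(1 / (28 * d)) : ℝ) *
          ({P : (j : Fin r) → EQ (a j) (b j) | ∀ j, height (P j) ≤ T ^ 2}.ncard : ℝ) := by
  classical
  have hD : ∀ j, Pool.Agent.H901R3.MS.Disc (a j : ℚ) (b j : ℚ) := by
    intro j h0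
    apply hE j
    have h1 : (4 * (a j : ℚ) ^ 3 + 27 * (b j : ℚ) ^ 2) = ((4 * a j ^ 3 + 27 * b j ^ 2 : ℤ) : ℚ) := by
      push_cast; ring
    rw [h1] at h0
    rcases mul_eq_zero.1 h0 with h2 | h2
    · norm_num at h2
    · exact_mod_cast h2
  have hpv : Pool.Agent.J4H11.RC.pv (fun j => V (j, 0)) (fun j => V (j, 1)) = V := by
    funext v
    obtain ⟨j, e⟩ := v
    rcases Pool.Agent.J4H11.RC.fin2 e with rfl | rfl <;> rfl
  rw [overCurve_eq] at hGal
  have hd0 : (0 : ℝ) < d := by exact_mod_cast (by omega : 0 < d)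
  have hd1 : (1 : ℝ) ≤ d := by exact_mod_cast (by omega : 1 ≤ d)
  obtain ⟨C, hC0, hC⟩ := Pool.Agent.J4H11.SC.main_sym i hD hinf hrk Φ hΦ d hd hΦd
    (fun j => P (j, 0)) (fun j => P (j, 1)) hPi hP hGal
    (fun j => V (j, 0)) (fun j => V (j, 1)) hV
    (by rw [hpv]; exact hdisc) (by
      rw [hpv, Pool.Agent.J4H11.RC.Wp]
      simp only [map_add, map_mul, map_pow, aeval_X, map_ofNat, aeval_C]
      exact hdi) (1 / (28 * d)) (by positivity) (by
      rw [div_le_one (by positivity)]
      linarith) (expo d hd)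
  obtain ⟨κ, hκ0, hκ⟩ := Pool.Agent.J4H11.RC.low_all (a := a) (b := b) hD
  have hset : ∀ (c : (j : Fin r) → Pool.Agent.H901R3.MS.Pt (a j : ℚ) (b j : ℚ)) (T : ℝ),
      Lifting a b Φ c T =
      {P : (j : Fin r) → Pool.Agent.H901R3.MS.Pt (a j : ℚ) (b j : ℚ) |
        (∀ j, Pool.Agent.J4H11.RC.hx (P j - c j) ≤ T ^ 2) ∧ Pool.Agent.J4H11.SC.LfS Φ P} := by
    intro c T
    unfold Lifting Pool.Agent.J4H11.SC.LfS
    simp only [val_eq, height_eq]
    rfl
  refine ⟨C + C / κ, fun c T hT => ?_⟩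
  obtain ⟨h1', h2'⟩ := hC T hT c
  obtain ⟨-, h3⟩ := hκ T (by linarith)
  have h1 : (Lifting a b Φ c T).Finite := (hset c T).symm ▸ h1'
  have h2 : ((Lifting a b Φ c T).ncard : ℝ) ≤
      C * T ^ (∑ j, finrank ℤ (EQ (a j) (b j))) * Real.log T ^ (-(1 / (28 * d)) : ℝ) :=
    (congrArg (fun S => (S.ncard : ℝ)) (hset c T)).le.trans h2'
  have hT0 : 0 < T := by linarith
  have hlog : 0 ≤ Real.log T ^ (-(1 / (28 * d)) : ℝ) :=
    Real.rpow_nonneg (Real.log_nonneg (by linarith)) _
  have hpos : 0 ≤ C / κ := div_nonneg hC0 hκ0.le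
  refine ⟨h1, ?_, ?_⟩
  · refine h2.trans ?_
    apply mul_le_mul_of_nonneg_right _ hlog
    apply mul_le_mul_of_nonneg_right _ (by positivity)
    linarith
  · have hball : {P : (j : Fin r) → EQ (a j) (b j) | ∀ j, height (P j) ≤ T ^ 2} =
        {P : (j : Fin r) → Pool.Agent.H901R3.MS.Pt (a j : ℚ) (b j : ℚ) |
          ∀ j, Pool.Agent.J4H11.RC.hx (P j) ≤ T ^ 2} := by
      simp only [height_eq]
      rfl
    rw [hball]
    refine h2.trans ?_
    calc C * T ^ (∑ j, finrank ℤ (EQ (a j) (b j))) * Real.log T ^ (-(1 / (28 * d)) : ℝ)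
        = C / κ * Real.log T ^ (-(1 / (28 * d)) : ℝ) *
            (κ * T ^ (∑ j, finrank ℤ (EQ (a j) (b j)))) := by
          field_simp
      _ ≤ C / κ * Real.log T ^ (-(1 / (28 * d)) : ℝ) * _ :=
          mul_le_mul_of_nonneg_left h3 (mul_nonneg hpos hlog)
      _ ≤ _ := by
          apply mul_le_mul_of_nonneg_right _ (Nat.cast_nonneg _)
          apply mul_le_mul_of_nonneg_right _ hlog
          linarith

end Pool.Agent.Results.MP_2ae8fe_ag.SymmetricCoversRankThree
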